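import Pool.Agent.Helper92.OR.Fin

/-!
# Reflections: the elements `-r_v` in a normal subgroup of the isometry group
-/

set_option autoImplicit false

namespace Pool.Agent.Helper81.SY

open Pool.Agent.Helper92.OR

variable {K V : Type*} [Field K] [AddCommGroup V] [Module K V]

/-- The reflection of a vector as a linear map. -/
def rl (B : LinearMap.BilinForm K V) (u : V) : V →ₗ[K] V :=
  LinearMap.id - (LinearMap.toSpanSingleton K V u).comp ((2 / B u u) • B.flip u)

theorem rl_apply (B : LinearMap.BilinForm K V) (u x : V) :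
    rl B u x = x - (2 * B x u / B u u) • u := by
  show x - ((2 / B u u) • (B x u)) • u = _
  congr 2
  rw [smul_eq_mul]
  ring

theorem rl_invol {B : LinearMap.BilinForm K V} {u : V} (hu : B u u ≠ 0) :
    Function.Involutive (rl B u) := by
  intro x
  rw [rl_apply, rl_apply, map_sub, map_smul, LinearMap.sub_apply, LinearMap.smul_apply, smul_eq_mul]
  have h1 : 2 * (B x u - 2 * B x u / B u u * B u u) / B u u = -(2 * B x u / B u u) := by
    field_simp
    ring
  rw [h1, neg_smul]
  abel

/-- The reflection. -/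
def re {B : LinearMap.BilinForm K V} {u : V} (hu : B u u ≠ 0) : V ≃ₗ[K] V :=
  LinearEquiv.ofInvolutive (rl B u) (rl_invol hu)

theorem re_apply {B : LinearMap.BilinForm K V} {u : V} (hu : B u u ≠ 0) (x : V) :
    re hu x = x - (2 * B x u / B u u) • u := rl_apply B u x

theorem re_isom {B : LinearMap.BilinForm K V} (hB : B.IsSymm) {u : V} (hu : B u u ≠ 0) (x y : V) :
    B (re hu x) (re hu y) = B x y := by
  have h : B u y = B y u := hB.eq u y
  rw [re_apply, re_apply]
  simp only [map_sub, map_smul, LinearMap.sub_apply, LinearMap.smul_apply, smul_eq_mul]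
  rw [h]
  field_simp
  ring

/-- Two vectors of the same non-zero norm are mapped to each other, up to sign, by an isometry. -/
theorem exists_isom {B : LinearMap.BilinForm K V} (h2 : (2 : K) ≠ 0) (hB : B.IsSymm) {v w : V}
    (hv : B v v ≠ 0) (hw : B w w = B v v) :
    ∃ g : V ≃ₗ[K] V, (∀ x y, B (g x) (g y) = B x y) ∧ (g v = w ∨ g v = -w) := by
  have hs : B w v = B v w := hB.eq w v
  have key : ∀ s : K, s * s = 1 → B (v - s • w) (v - s • w) ≠ 0 →
      ∃ g : V ≃ₗ[K] V, (∀ x y, B (g x) (g y) = B x y) ∧ g v = s • w := by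
    intro s hss hne
    refine ⟨re hne, re_isom hB hne, ?_⟩
    rw [re_apply]
    have h1 : B (v - s • w) (v - s • w) = 2 * B v (v - s • w) := by
      simp only [map_sub, map_smul, LinearMap.sub_apply, LinearMap.smul_apply, smul_eq_mul]
      rw [hs, hw]
      linear_combination B v v * hss
    rw [← h1, div_self hne, one_smul]
    abel
  by_cases h : B (v - w) (v - w) = 0
  · have h3 : B (v - (-1 : K) • w) (v - (-1 : K) • w) ≠ 0 := by
      intro h4
      have h5 : (2 * 2) * B v v = 0 := by
        rw [neg_smul, one_smul, sub_neg_eq_add] at h4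
        simp only [map_sub, map_add, LinearMap.sub_apply, LinearMap.add_apply] at h h4
        rw [hw] at h h4
        linear_combination h + h4
      exact (mul_ne_zero (mul_ne_zero h2 h2) hv) h5
    obtain ⟨g, hg, h6⟩ := key (-1) (by ring) h3
    exact ⟨g, hg, Or.inr (by rw [h6, neg_smul, one_smul])⟩
  · obtain ⟨g, hg, h6⟩ := key 1 (by ring) (by rwa [one_smul])
    exact ⟨g, hg, Or.inl (by rw [h6, one_smul])⟩

/-- A group of isometries which is normalized by all isometries and contains one `-r_v` contains all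
`-r_w` with `B w w = B v v`. -/
theorem all_mem {B : LinearMap.BilinForm K V} (h2 : (2 : K) ≠ 0) (hB : B.IsSymm)
    (G : Subgroup (V ≃ₗ[K] V))
    (hn : ∀ g : V ≃ₗ[K] V, (∀ x y, B (g x) (g y) = B x y) → ∀ k ∈ G, g * k * g⁻¹ ∈ G)
    {v : V} (hv : B v v ≠ 0) (a : V ≃ₗ[K] V) (ha : a ∈ G)
    (hav : ∀ x, a x = (2 * B x v / B v v) • v - x) (g : V ≃ₗ[K] V)
    (hg : NegRefl B (B v v) g) : g ∈ G := by
  obtain ⟨w, hw, hgw⟩ := hg
  obtain ⟨k, hk, hkv⟩ := exists_isom h2 hB hv hw
  have h3 : g = k * a * k⁻¹ := by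
    apply LinearEquiv.ext
    intro x
    obtain ⟨y, rfl⟩ := k.surjective x
    have h4 : (k * a * k⁻¹) (k y) = k (a y) := by
      show k (a (k.symm (k y))) = _
      rw [k.symm_apply_apply]
    rw [h4, hav, hgw, map_sub, map_smul]
    rcases hkv with h5 | h5
    · rw [← hk y v, h5]
    · rw [← hk y v, h5, map_neg]
      congr 1
      rw [smul_neg, ← neg_smul]
      congr 1
      ring
  rw [h3]
  exact hn k hk a ha

end Pool.Agent.Helper81.SY
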