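import Pool.Agent.Helper2.SP.Bridge
import Pool.Agent.Helper81.SG.Tv
import Pool.Agent.Helper81.SY.Refl

/-!
# Symplectic groups in characteristic two and orthogonal groups in odd dimension
-/

set_option autoImplicit false
set_option linter.unusedSectionVars false

namespace Pool.Agent.Helper81.SY

/-- Transvections: two colours suffice. -/
theorem two_colours {K V : Type*} [Field K] [Finite K] [CharP K 2] [AddCommGroup V] [Module K V]
    [FiniteDimensional K V] (B : LinearMap.BilinForm K V) (halt : B.IsAlt)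
    (hnd : B.Nondegenerate) (L : Subgroup (V ≃ₗ[K] V))
    (hL : ∀ g : V ≃ₗ[K] V, g ∈ L ↔ ∀ x y, B (g x) (g y) = B x y)
    (a : L) (ha : orderOf a = 2) (hv : ∃ v : V, ∀ x, (a : V ≃ₗ[K] V) x = x + B x v • v)
    (τ : Equiv.Perm {b : L // IsConj a b})
    (hτ : ∀ x y, x ≠ y →
      (orderOf ((τ x : L) * τ y) = 2 ↔ orderOf ((x : L) * y) = 2) ∧
      (orderOf ((τ x : L) * τ y) = 3 ↔ orderOf ((x : L) * y) = 3)) :
    ∃ φ : MulAut L, φ '' {b | IsConj a b} = {b | IsConj a b} ∧ ∀ x, φ x.1 = (τ x).1 := by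
  let D : Set L := {b | ∃ v : V, v ≠ 0 ∧ ∀ x, (b : V ≃ₗ[K] V) x = x + B x v • v}
  obtain ⟨-, h2, -, h4⟩ := Pool.Agent.Helper81.SG.transvections B halt hnd L hL D
    (fun b => Iff.rfl)
  have haD : a ∈ D := by
    obtain ⟨v, hav⟩ := hv
    refine ⟨v, ?_, hav⟩
    rintro rfl
    have h5 : a = 1 := by
      apply Subtype.ext
      apply LinearEquiv.ext
      intro x
      rw [hav, smul_zero, add_zero]
      rfl
    rw [h5, orderOf_one] at ha
    exact absurd ha (by norm_num)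
  have hset : ∀ b : L, b ∈ D ↔ IsConj a b := fun b => h2 a haD b
  let e : D ≃ {b : L // IsConj a b} := Equiv.subtypeEquivRight hset
  obtain ⟨φ, hφ⟩ := h4 ((e.trans τ).trans e.symm) (by
    intro x y hxy
    exact hτ (e x) (e y) fun h => hxy (e.injective h))
  have hφ' : ∀ x : {b : L // IsConj a b}, φ x.1 = (τ x).1 := by
    intro x
    have h5 := hφ (e.symm x)
    have h6 : ((e.trans τ).trans e.symm) (e.symm x) = e.symm (τ x) := by
      show e.symm (τ (e (e.symm x))) = _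
      rw [Equiv.apply_symm_apply]
    rw [h6] at h5
    exact h5
  refine ⟨φ, ?_, hφ'⟩
  ext b
  constructor
  · rintro ⟨x, hx, rfl⟩
    rw [hφ' ⟨x, hx⟩]
    exact (τ ⟨x, hx⟩).2
  · intro hb
    refine ⟨(τ.symm ⟨b, hb⟩).1, (τ.symm ⟨b, hb⟩).2, ?_⟩
    rw [hφ', Equiv.apply_symm_apply]

end Pool.Agent.Helper81.SY
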