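import Pool.Agent.Helper81.SY.Main

/-!
# Symplectic groups in characteristic two and orthogonal groups in odd dimension
-/

set_option autoImplicit false

namespace Pool.Agent.Helper81.SY

/-- Let `V` be a finite-dimensional space over a finite field `K`, `B` a nondegenerate bilinear form
on `V` and `L` a group of isometries of `B`. Let `a ∈ L` be of order two, and suppose that

* `K` has characteristic two, `B` is alternating, `L = Sp(V, B)` is the full group of isometries,
  and `L` is simple or `a` is a transvection; or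
* `K` has odd characteristic, `B` is symmetric, `L` is simple and normalized by all isometries,
  `dim V ≥ 5` (`dim V ≥ 6` if `|K| = 3`), and `a` is the negative of a reflection `r_v`.

Then every permutation `τ` of the conjugacy class of `a` in `L` that preserves the orders of the
products of distinct elements is the restriction of an automorphism of `L` that maps the class to
itself. If `a` is a symplectic transvection, it is enough that `τ` preserves the orders `2` and `3`. -/
theorem result {K V : Type*} [Field K] [Finite K] [AddCommGroup V] [Module K V]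
    [FiniteDimensional K V] (B : LinearMap.BilinForm K V) (hB : B.Nondegenerate)
    (L : Subgroup (V ≃ₗ[K] V)) (hL : ∀ g ∈ L, ∀ x y, B (g x) (g y) = B x y)
    (a : L) (ha : orderOf a = 2)
    (h : ((2 : K) = 0 ∧ B.IsAlt ∧
            (∀ g : V ≃ₗ[K] V, (∀ x y, B (g x) (g y) = B x y) → g ∈ L) ∧
            (IsSimpleGroup L ∨ ∃ v : V, ∀ x, (a : V ≃ₗ[K] V) x = x + B x v • v)) ∨
         ((2 : K) ≠ 0 ∧ B.IsSymm ∧ IsSimpleGroup L ∧
            (∀ g : V ≃ₗ[K] V, (∀ x y, B (g x) (g y) = B x y) → ∀ k ∈ L, g * k * g⁻¹ ∈ L) ∧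
            5 ≤ Module.finrank K V ∧ (Nat.card K = 3 → 6 ≤ Module.finrank K V) ∧
            ∃ v : V, B v v ≠ 0 ∧ ∀ x, (a : V ≃ₗ[K] V) x = (2 * B x v / B v v) • v - x))
    (τ : Equiv.Perm {b : L // IsConj a b})
    (hτ : (∀ x y, x ≠ y → orderOf ((τ x : L) * τ y) = orderOf ((x : L) * y)) ∨
      ((2 : K) = 0 ∧ (∃ v : V, ∀ x, (a : V ≃ₗ[K] V) x = x + B x v • v) ∧
        ∀ x y, x ≠ y →
          (orderOf ((τ x : L) * τ y) = 2 ↔ orderOf ((x : L) * y) = 2) ∧
          (orderOf ((τ x : L) * τ y) = 3 ↔ orderOf ((x : L) * y) = 3))) :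
    ∃ φ : MulAut L, φ '' {b | IsConj a b} = {b | IsConj a b} ∧ ∀ x, φ x.1 = (τ x).1 := by
  rcases h with ⟨h2, halt, hall, hs⟩ | ⟨h2, hsym, hsimple, hn, hdim, hcard, v, hv, hav⟩
  · haveI : CharP K 2 := CharTwo.of_one_ne_zero_of_two_eq_zero one_ne_zero h2
    have hL' : ∀ g : V ≃ₗ[K] V, g ∈ L ↔ ∀ x y, B (g x) (g y) = B x y :=
      fun g => ⟨hL g, hall g⟩
    rcases hτ with hτ | ⟨-, hv, hτ⟩
    · exact Pool.Agent.Helper2.SP.all_classes B halt hB L hL' a ha hs τ hτ
    · exact Pool.Agent.Helper81.SY.two_colours B halt hB L hL' a ha hv τ hτ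
  · rcases hτ with hτ | ⟨h0, -⟩
    · have hc : 3 < Nat.card K ∨ 6 ≤ Module.finrank K V := by
        by_cases h3 : Nat.card K = 3
        · exact Or.inr (hcard h3)
        · left
          haveI := Fintype.ofFinite K
          have h4 : 1 < Nat.card K := Finite.one_lt_card
          have h5 : Nat.card K ≠ 2 := by
            intro h6
            apply h2
            have h7 : ((Nat.card K : ℕ) : K) = 0 := by
              rw [Nat.card_eq_fintype_card]
              exact Nat.cast_card_eq_zero K
            rw [h6] at h7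
            exact_mod_cast h7
          omega
      exact (Pool.Agent.Helper92.OR.omega h2 hdim hc B hsym hB (B v v) hv L hL
        (fun g hg => Pool.Agent.Helper81.SY.all_mem h2 hsym L hn hv a a.2 hav g hg) a
        ⟨v, rfl, hav⟩).2.2 τ hτ
    · exact absurd h0 h2

end Pool.Agent.Helper81.SY
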